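import Pool.Agent.Lib.LJ84.Blue

/-! Project LJ, row `PAR`: circle integrals depend holomorphically on parameters. -/

open scoped Topology
open Set Filter Metric MeasureTheory

noncomputable section

namespace Pool.Agent.Lib.LJ84

theorem bPAR : St_PAR := by
  intro F _ _ _ H O U a r hO hU hr hsub hH z₀ hz₀
  have : ProperSpace F := FiniteDimensional.proper ℂ F
  obtain ⟨ε, hε, hεU⟩ := nhds_basis_closedBall.mem_iff.1 (hU.mem_nhds hz₀)
  have hm : ∀ (t : ℝ), ∀ z ∈ U, (circleMap a r t, z) ∈ O := fun t z hz =>
    hsub ⟨circleMap_mem_sphere a hr.le t, hz⟩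
  have hcd := SV.H85.continuousOn_fderiv hO hH
  obtain ⟨C, hC⟩ := IsCompact.exists_bound_of_continuousOn
    ((isCompact_sphere a r).prod (isCompact_closedBall z₀ ε))
    (hcd.mono ((prod_mono_right hεU).trans hsub))
  have hcm : ∀ z : F, Continuous fun t : ℝ => (circleMap a r t, z) := fun z =>
    (continuous_circleMap a r).prodMk continuous_const
  have hdc : Continuous fun t : ℝ => deriv (circleMap a r) t := by
    simp only [deriv_circleMap]
    exact (continuous_circleMap 0 r).mul continuous_const
  have hc1 : ∀ z ∈ U, Continuous fun t : ℝ => deriv (circleMap a r) t • H (circleMap a r t, z) :=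
    fun z hz => hdc.smul (hH.continuousOn.comp_continuous (hcm z) fun t => hm t z hz)
  have hc2 : Continuous fun t : ℝ => deriv (circleMap a r) t •
      (fderiv ℂ H (circleMap a r t, z₀)).comp (ContinuousLinearMap.inr ℂ ℂ F) :=
    hdc.smul ((hcd.comp_continuous (hcm z₀) fun t => hm t z₀ hz₀).clm_comp continuous_const)
  refine (intervalIntegral.hasFDerivAt_integral_of_dominated_of_fderiv_le (𝕜 := ℂ) (μ := volume)
    (F := fun z t => deriv (circleMap a r) t • H (circleMap a r t, z))
    (F' := fun z t => deriv (circleMap a r) t •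
      (fderiv ℂ H (circleMap a r t, z)).comp (ContinuousLinearMap.inr ℂ ℂ F))
    (bound := fun _ => r * (C * ‖ContinuousLinearMap.inr ℂ ℂ F‖)) (a := 0) (b := 2 * Real.pi)
    (closedBall_mem_nhds z₀ hε) ?_ ((hc1 z₀ hz₀).intervalIntegrable _ _)
    hc2.aestronglyMeasurable ?_ intervalIntegrable_const
    ?_).differentiableAt.differentiableWithinAt
  · filter_upwards [hU.mem_nhds hz₀] with z hz using (hc1 z hz).aestronglyMeasurable
  · refine Eventually.of_forall fun t _ z hz => ?_
    have h1 := hC (circleMap a r t, z) ⟨circleMap_mem_sphere a hr.le t, hz⟩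
    rw [norm_smul, deriv_circleMap, norm_mul, Complex.norm_I, mul_one, norm_circleMap_zero,
      abs_of_pos hr]
    exact mul_le_mul_of_nonneg_left ((ContinuousLinearMap.opNorm_comp_le _ _).trans
      (mul_le_mul_of_nonneg_right h1 (norm_nonneg _))) hr.le
  · refine Eventually.of_forall fun t _ z hz => ?_
    have h1 := (hH.differentiableAt (hO.mem_nhds (hm t z (hεU hz)))).hasFDerivAt
    exact (h1.comp z (hasFDerivAt_prodMk_right (circleMap a r t) z)).const_smul
      (deriv (circleMap a r) t)

end Pool.Agent.Lib.LJ84
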