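import Pool.Agent.Lib.LJ84.Blue

/-! Project LJ, row DCS: the step of the chain condition. -/

open scoped Topology
open Set Filter Metric

noncomputable section

namespace Pool.Agent.Lib.LJ84

theorem bDCS (hW : St_WP) : St_DCS := by
  classical
  intro F _ _ _ hF A g a₀ O p hO hp hg hn
  obtain ⟨r, c, U, d, α, R⟩ := hW F (g a₀) O p hO hp (hg a₀) hn
  choose T c' c0 _ hT hc using fun s : Finset A => exists_Phi (W := s → ℂ) d
  choose σ hσ using fun i : ℕ => hF (Σ s : Finset A, T s × Fin (d + 1))
    (fun q z => Phi (T q.1) i (fun b a => g a.1 (α z b, z)) q.2) U p.2 R.opn R.mem fun q => by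
      unfold Phi
      split_ifs
      · exact R.hol (fun y => q.2.1.1 fun a => g a.1 y)
          (q.2.1.1.differentiable.comp_differentiableOn (differentiableOn_pi.2 fun a => hg a.1)) _
      · exact differentiableOn_const _
  set s := insert a₀ ((Finset.range (d + 1)).biUnion fun i => (σ i).biUnion fun q => q.1) with hs
  have h1 := (eventually_all_finset (Finset.range (d + 1))).2 fun i _ => hσ i
  refine ⟨s, ?_⟩
  filter_upwards [continuousAt_snd.eventually h1, continuousAt_snd.eventually (R.opn.mem_nhds R.mem),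
    continuousAt_fst.eventually (closedBall_mem_nhds p.1 R.r0)] with ⟨w, z⟩ z1 z2 z3 h0 a
  have h2 := R.low z z2 w z3
  rw [h0 a₀ (Finset.mem_insert_self _ _), norm_zero] at h2
  obtain ⟨b, -, hb⟩ := Finset.prod_eq_zero_iff.1 (le_antisymm
    (nonpos_of_mul_nonpos_right h2 R.c0) (Finset.prod_nonneg fun _ _ => norm_nonneg _))
  obtain rfl : w = α z b := sub_eq_zero.1 (norm_eq_zero.1 hb)
  set S := Finset.univ.filter fun b => ∃ a ∈ s, g a (α z b, z) ≠ 0 with hS
  have hbS : b ∉ S := fun h => by
    obtain ⟨a, a1, a2⟩ := (Finset.mem_filter.1 h).2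
    exact a2 (h0 a a1)
  have hi : S.card + 1 ∈ Finset.range (d + 1) := by
    have := Finset.card_le_univ (insert b S)
    rw [Finset.card_insert_of_notMem hbS, Fintype.card_fin] at this
    exact Finset.mem_range.2 (by omega)
  have h3 := z1 _ hi fun q hq => congrFun (Phi_eq_zero (hT q.1) _ (Nat.lt_succ_self S.card)
    fun b' hb' => funext fun a => by
      by_contra h
      exact hb' (Finset.mem_filter.2 ⟨Finset.mem_univ _, a.1, Finset.mem_insert_of_mem
        (Finset.mem_biUnion.2 ⟨_, hi, Finset.mem_biUnion.2 ⟨q, hq, a.2⟩⟩), h⟩)) q.2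
  by_contra ha
  have h4 := card_lt_of_Phi (c0 _) (hc (insert a s)) (v := fun b a => g a.1 (α z b, z))
    (i := S.card + 1) (funext fun q => h3 ⟨insert a s, q⟩) (S := insert b S) fun b' hb' h => by
      rcases Finset.mem_insert.1 hb' with rfl | hb'
      · exact ha (congrFun h ⟨a, Finset.mem_insert_self _ _⟩)
      · obtain ⟨a', a1, a2⟩ := (Finset.mem_filter.1 hb').2
        exact a2 (congrFun h ⟨a', Finset.mem_insert_of_mem a1⟩)
  rw [Finset.card_insert_of_notMem hbS] at h4
  exact lt_irrefl _ h4

end Pool.Agent.Lib.LJ84
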