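import Pool.Agent.Lib.LJ84.Blue

/-! Project LJ, row DIR: a good direction. -/

open scoped Topology
open Set Filter Metric

noncomputable section

namespace Pool.Agent.Lib.LJ84

theorem bDIR : St_DIR := by
  intro F _ _ _ g O x hO hx hg g0 hn
  obtain ⟨r, r0, hr⟩ := Metric.isOpen_iff.1 hO x hx
  obtain ⟨y, y1, y2⟩ := ((not_eventually.1 hn).and_eventually (ball_mem_nhds x r0)).exists
  have hv : y - x ≠ 0 := fun h => y1 (by rw [sub_eq_zero.1 h]; exact g0)
  obtain ⟨lam, hl⟩ := SeparatingDual.exists_eq_one (R := ℂ) hv
  have h1 : Function.RightInverse (ContinuousLinearMap.toSpanSingleton ℂ (y - x)) lam := fun t => by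
    simp only [ContinuousLinearMap.toSpanSingleton_apply, map_smul, hl, smul_eq_mul, mul_one]
  refine ⟨lam.ker, ContinuousLinearEquiv.equivOfRightInverse lam _ h1, ?_, fun h => y1 ?_⟩
  · rw [(ContinuousLinearEquiv.equivOfRightInverse lam _ h1).toLinearEquiv.finrank_eq,
      Module.finrank_prod, Module.finrank_self, add_comm]
  · set L : ℂ → F := fun w => x + (w - lam x) • (y - x) with hL
    have e : ∀ w, (ContinuousLinearEquiv.equivOfRightInverse lam _ h1).symm
        (w, (ContinuousLinearEquiv.equivOfRightInverse lam _ h1 x).2) = L w := fun w => by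
      simp only [ContinuousLinearEquiv.equivOfRightInverse_symm_apply,
        ContinuousLinearEquiv.snd_equivOfRightInverse,
        ContinuousLinearMap.projKerOfRightInverse_apply_idem,
        ContinuousLinearMap.coe_projKerOfRightInverse_apply,
        ContinuousLinearMap.toSpanSingleton_apply, hL, sub_smul]
      abel
    simp only [e, ContinuousLinearEquiv.fst_equivOfRightInverse] at h
    have hd : Differentiable ℂ L := by fun_prop
    have hc : Convex ℝ (L ⁻¹' ball x r) := fun a ha b hb s t hs ht hst => by
      have := convex_ball x r ha hb hs ht hst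
      refine mem_preimage.2 (Eq.subst (motive := fun u => u ∈ ball x r) ?_ this)
      obtain rfl : s = 1 - t := eq_sub_of_add_eq hst
      simp only [hL, Complex.real_smul, ← Complex.coe_smul]
      push_cast
      module
    have h2 := SV.H85.eq_zero_of_convex (f := fun w => g (L w)) (isOpen_ball.preimage hd.continuous)
      hc (hg.comp hd.differentiableOn fun w hw => hr hw) (y := lam x)
      (by simp [hL, r0]) h (z := lam x + 1) (by simpa [hL] using y2)
    simpa [hL] using h2

end Pool.Agent.Lib.LJ84
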