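import Pool.Agent.Lib.LJ84.Blue

/-! Project LJ, row FAC: the zeros of a holomorphic function in a disc. -/

open scoped Topology
open Set Filter Metric

noncomputable section

namespace Pool.Agent.Lib.LJ84

namespace FAC

variable {O : Set ℂ} {a : ℂ} {r : ℝ}

theorem ana (hO : IsOpen O) (hs : closedBall a r ⊆ O) {g : ℂ → ℂ} (hg : DifferentiableOn ℂ g O) :
    AnalyticOnNhd ℂ g (closedBall a r) := (hg.analyticOnNhd hO).mono hs

theorem not_ev (hO : IsOpen O) (hr : 0 < r) (hs : closedBall a r ⊆ O) {g : ℂ → ℂ}
    (hg : DifferentiableOn ℂ g O) (h0 : ∀ w ∈ sphere a r, g w ≠ 0) {x : ℂ}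
    (hx : x ∈ closedBall a r) : ¬∃ᶠ z in 𝓝[≠] x, g z = 0 := fun h => by
  obtain ⟨w, hw⟩ := (NormedSpace.sphere_nonempty (E := ℂ) (x := a)).2 hr.le
  exact h0 w hw ((ana hO hs hg).eqOn_zero_of_preconnected_of_frequently_eq_zero
    (convex_closedBall a r).isPreconnected hx h (sphere_subset_closedBall hw))

theorem fin (hO : IsOpen O) (hr : 0 < r) (hs : closedBall a r ⊆ O) {g : ℂ → ℂ}
    (hg : DifferentiableOn ℂ g O) (h0 : ∀ w ∈ sphere a r, g w ≠ 0) :
    {w | w ∈ closedBall a r ∧ g w = 0}.Finite := by
  by_contra h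
  obtain ⟨x, hx, h1⟩ := Set.Infinite.exists_accPt_of_subset_isCompact h (isCompact_closedBall a r)
    fun w hw => hw.1
  rw [accPt_iff_frequently_nhdsNE] at h1
  exact not_ev hO hr hs hg h0 hx (h1.mono fun z hz => hz.2)

theorem fac (hO : IsOpen O) (hr : 0 < r) (hs : closedBall a r ⊆ O) (s : Finset ℂ) :
    ∀ g : ℂ → ℂ, DifferentiableOn ℂ g O → (∀ w ∈ sphere a r, g w ≠ 0) →
    (∀ w ∈ closedBall a r, g w = 0 → w ∈ s) →
    ∃ (d : ℕ) (α : Fin d → ℂ) (u : ℂ → ℂ), (∀ b, α b ∈ ball a r) ∧ DifferentiableOn ℂ u O ∧
      (∀ w ∈ closedBall a r, u w ≠ 0) ∧ ∀ w, g w = u w * ∏ b, (w - α b) := by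
  classical
  induction s using Finset.induction_on with
  | empty =>
    intro g hg h0 h
    exact ⟨0, Fin.elim0, g, fun b => b.elim0, hg, fun w hw e => by simpa using h w hw e,
      fun w => by simp⟩
  | insert x s hx ih =>
    intro g hg h0 h
    by_cases hb : x ∈ ball a r
    · have hc := ball_subset_closedBall hb
      obtain ⟨n, G, G1, G2, G3⟩ := (ana hO hs hg x hc).exists_eventuallyEq_pow_smul_nonzero_iff.2
        fun e => not_ev hO hr hs hg h0 hc (e.filter_mono nhdsWithin_le_nhds).frequently
      set H : ℂ → ℂ := fun w => if w = x then G x else g w / (w - x) ^ n with hH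
      have e1 : ∀ w, g w = (w - x) ^ n * H w := fun w => by
        by_cases e : w = x
        · simpa only [hH, e, if_true, smul_eq_mul] using G3.self_of_nhds
        · simp only [hH, e, if_false]
          rw [mul_div_cancel₀ _ (pow_ne_zero n (sub_ne_zero.2 e))]
      have e2 : H =ᶠ[𝓝 x] G := G3.mono fun w hw => by
        by_cases e : w = x
        · simp only [hH, e, if_true]
        · simp only [hH, e, if_false]
          rw [hw, smul_eq_mul, mul_div_cancel_left₀ _ (pow_ne_zero n (sub_ne_zero.2 e))]
      have d1 : DifferentiableOn ℂ H O := fun w hw => by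
        refine DifferentiableAt.differentiableWithinAt ?_
        by_cases e : w = x
        · rw [e]
          exact G1.differentiableAt.congr_of_eventuallyEq e2
        · have d2 : DifferentiableAt ℂ (fun y => g y / (y - x) ^ n) w :=
            (hg.differentiableAt (hO.mem_nhds hw)).div (by fun_prop)
              (pow_ne_zero n (sub_ne_zero.2 e))
          refine d2.congr_of_eventuallyEq ?_
          filter_upwards [isOpen_ne.mem_nhds e] with y hy
          simp only [hH, hy, if_false]
      obtain ⟨d, α, u, u1, u2, u3, u4⟩ := ih H d1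
        (fun w hw e => h0 w hw (by rw [e1, e, mul_zero])) fun w hw e => by
          rcases Finset.mem_insert.1 (h w hw (by rw [e1, e, mul_zero])) with e' | e'
          · rw [e', e2.self_of_nhds] at e
            exact absurd e G2
          · exact e'
      refine ⟨n + d, Fin.append (fun _ => x) α, u, fun b => ?_, u2, u3, fun w => ?_⟩
      · refine Fin.addCases (fun i => ?_) (fun i => ?_) b
        · rwa [Fin.append_left]
        · rw [Fin.append_right]
          exact u1 i
      · rw [e1, u4, Fin.prod_univ_add]
        simp only [Fin.append_left, Fin.append_right, Finset.prod_const, Finset.card_univ,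
          Fintype.card_fin]
        ring
    · refine ih g hg h0 fun w hw e => ?_
      rcases Finset.mem_insert.1 (h w hw e) with e' | e'
      · refine absurd e (h0 w ?_)
        rw [← e'] at hb
        exact le_antisymm hw (not_lt.1 hb)
      · exact e'

end FAC

open FAC in
theorem bFAC : St_FAC := by
  intro g O a r c hO hr hc hs hg h0
  have h1 : ∀ w ∈ sphere a r, g w ≠ 0 := fun w hw => norm_pos_iff.1 (hc.trans_le (h0 w hw))
  obtain ⟨d, α, u, u1, u2, u3, u4⟩ := fac hO hr hs (fin hO hr hs hg h1).toFinset g hg h1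
    fun w hw e => (Set.Finite.mem_toFinset _).2 ⟨hw, e⟩
  have ua := ana hO hs u2
  have ne : ∀ w ∈ sphere a r, ∀ b, w - α b ≠ 0 := fun w hw b e => by
    have := u1 b
    rw [← sub_eq_zero.1 e] at this
    exact (mem_ball.1 this).ne hw
  refine ⟨d, α, fun b => ⟨u1 b, ?_⟩, fun w hw => ?_, fun h hh => ?_⟩
  · rw [u4, Finset.prod_eq_zero (Finset.mem_univ b) (sub_self _), mul_zero]
  · have p : 0 < (2 * r) ^ d := by positivity
    have d1 : DiffContOnCl ℂ (fun w => (u w)⁻¹) (ball a r) :=
      (((u2.mono hs).inv u3).mono closure_ball_subset_closedBall).diffContOnCl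
    have b1 : ‖(u w)⁻¹‖ ≤ (2 * r) ^ d / c := by
      refine Complex.norm_le_of_forall_mem_frontier_norm_le isBounded_ball d1 (fun y hy => ?_)
        (by rwa [closure_ball a hr.ne'])
      rw [frontier_ball a hr.ne'] at hy
      have q : ∏ b, ‖y - α b‖ ≤ (2 * r) ^ d := by
        refine (Finset.prod_le_prod (g := fun _ => 2 * r) (fun _ _ => norm_nonneg _)
          fun b _ => ?_).trans_eq (by simp)
        have := dist_triangle_right y (α b) a
        rw [← dist_eq_norm]
        linarith [mem_sphere.1 hy, mem_ball.1 (u1 b)]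
      have q2 := h0 y hy
      rw [u4, norm_mul, norm_prod] at q2
      have q3 : 0 < ‖u y‖ := norm_pos_iff.2 (u3 y (sphere_subset_closedBall hy))
      rw [norm_inv, inv_eq_one_div, div_le_div_iff₀ q3 hc, one_mul, mul_comm]
      exact q2.trans (mul_le_mul_of_nonneg_left q q3.le)
    have q3 : 0 < ‖u w‖ := norm_pos_iff.2 (u3 w hw)
    rw [norm_inv, inv_eq_one_div, div_le_div_iff₀ q3 hc, one_mul] at b1
    rw [u4, norm_mul, norm_prod]
    refine mul_le_mul_of_nonneg_right ?_ (Finset.prod_nonneg fun _ _ => norm_nonneg _)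
    rwa [div_le_iff₀ p, mul_comm]
  · have ha := ana hO hs hh
    have d0 : DifferentiableOn ℂ (fun w => h w * deriv u w / u w) (closedBall a r) :=
      ((ha.mul ua.deriv).div ua u3).differentiableOn
    have e : EqOn (fun w => h w * deriv g w / g w)
        (fun w => h w * deriv u w / u w + ∑ b, (w - α b)⁻¹ • h w) (sphere a r) := fun w hw => by
      have hw' := sphere_subset_closedBall hw
      have l1 : logDeriv g w = logDeriv u w + ∑ b, logDeriv (fun y => y - α b) w := by
        rw [← logDeriv_prod (fun b _ => ne w hw b) fun b _ => by fun_prop,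
          ← logDeriv_mul w (u3 w hw') (Finset.prod_ne_zero_iff.2 fun b _ => ne w hw b)
            (ua w hw').differentiableAt (by fun_prop)]
        exact congrArg (fun f => logDeriv f w) (funext u4)
      simp only [logDeriv_apply, deriv_sub_const, deriv_id'', one_div] at l1
      simp only [mul_div_assoc, l1, mul_add, Finset.mul_sum, smul_eq_mul, mul_comm]
    have c0 : ∀ b, ContinuousOn (fun w => (w - α b)⁻¹ • h w) (sphere a r) := fun b =>
      ((continuousOn_id.sub continuousOn_const).inv₀ fun w hw => ne w hw b).smul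
        (ha.continuousOn.mono sphere_subset_closedBall)
    have c1 : ∀ b, CircleIntegrable (fun w => (w - α b)⁻¹ • h w) a r := fun b =>
      (c0 b).circleIntegrable hr.le
    have c2 : CircleIntegrable (fun w => ∑ b, (w - α b)⁻¹ • h w) a r :=
      (continuousOn_finsetSum _ fun b _ => c0 b).circleIntegrable hr.le
    rw [circleIntegral.integral_congr hr.le e, circleIntegral.integral_add
      ((d0.continuousOn.mono sphere_subset_closedBall).circleIntegrable hr.le) c2,
      circleIntegral.integral_fun_sum fun b _ => c1 b,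
      ((d0.mono closure_ball_subset_closedBall).diffContOnCl).circleIntegral_eq_zero hr.le,
      zero_add, Finset.mul_sum]
    exact Finset.sum_congr rfl fun b _ => (hh.mono hs).circleIntegral_sub_inv_smul (u1 b)

end Pool.Agent.Lib.LJ84
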