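import Pool.Agent.Lib.LJ84.Blue

/-! Row LJS: the induction step of the inequality of Lojasiewicz. -/

open scoped Topology
open Set Filter Metric

noncomputable section

namespace Pool.Agent.Lib.LJ84

namespace LJS

theorem last {d M : ℕ} (hd : 0 < d) (hM : 0 < M) {K B c : ℝ} (hK : 0 ≤ K) (hB : 0 ≤ B)
    (hc : 0 < c) : ∃ C : ℝ, 0 ≤ C ∧ ∀ φ V γ δ : ℝ, 0 ≤ φ → 0 ≤ V → 0 ≤ γ → γ ≤ 1 → 0 ≤ δ →
      δ ^ d ≤ B * γ → c * V ^ M ≤ γ + K * δ → φ ≤ V + K * δ → φ ^ (M * d) ≤ C * γ := by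
  refine ⟨2 ^ (M * d - 1) * (c⁻¹ ^ d * (2 ^ (d - 1) * (1 + K ^ d * B)) + (K ^ d * B) ^ M),
    by positivity, fun φ V γ δ hφ hV hγ hγ1 hδ h1 h2 h3 => ?_⟩
  have a1 : (K * δ) ^ d ≤ K ^ d * B * γ := by
    rw [mul_pow, mul_assoc]; exact mul_le_mul_of_nonneg_left h1 (by positivity)
  have a2 : (K * δ) ^ (M * d) ≤ (K ^ d * B) ^ M * γ := by
    rw [mul_comm M d, pow_mul]
    refine (pow_le_pow_left₀ (by positivity) a1 M).trans ?_
    rw [mul_pow]
    exact mul_le_mul_of_nonneg_left (pow_le_of_le_one hγ hγ1 hM.ne') (by positivity)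
  have a3 : V ^ M ≤ c⁻¹ * (γ + K * δ) := by
    rw [← div_eq_inv_mul, le_div_iff₀ hc, mul_comm]; exact h2
  have a4 : (γ + K * δ) ^ d ≤ 2 ^ (d - 1) * (1 + K ^ d * B) * γ := by
    refine (add_pow_le hγ (by positivity) d).trans ?_
    rw [mul_assoc]
    refine mul_le_mul_of_nonneg_left ?_ (by positivity)
    have := pow_le_of_le_one hγ hγ1 hd.ne'
    linarith
  have a5 : V ^ (M * d) ≤ c⁻¹ ^ d * (2 ^ (d - 1) * (1 + K ^ d * B)) * γ := by
    rw [pow_mul]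
    refine (pow_le_pow_left₀ (by positivity) a3 d).trans ?_
    rw [mul_pow, mul_assoc]
    exact mul_le_mul_of_nonneg_left a4 (by positivity)
  refine (pow_le_pow_left₀ hφ h3 _).trans ((add_pow_le hV (by positivity) _).trans ?_)
  rw [mul_assoc]
  refine mul_le_mul_of_nonneg_left ?_ (by positivity)
  linarith

theorem unif {d : ℕ} (N : Fin (d + 1) → ℕ) (C : Fin (d + 1) → ℝ) (hC : ∀ i, 0 ≤ C i) {c : ℝ}
    (hc : 0 < c) : ∃ (c₀ : ℝ) (N₀ : ℕ), 0 < c₀ ∧ c₀ ≤ 1 ∧ 0 < N₀ ∧ ∀ i (y : ℝ), 0 < y → y ≤ 1 →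
      C i * (2 ^ d * 1 ^ d * (c₀ * y ^ N₀)) < (c * y ^ d) ^ N i := by
  have h1 : ∀ᶠ t : ℝ in 𝓝 0, ∀ i, C i * 2 ^ d * t < c ^ N i := by
    refine eventually_all.2 fun i => ?_
    have : Tendsto (fun t : ℝ => C i * 2 ^ d * t) (𝓝 0) (𝓝 (C i * 2 ^ d * 0)) :=
      tendsto_const_nhds.mul tendsto_id
    exact this.eventually_lt_const (by rw [mul_zero]; positivity)
  have h2 : ∀ᶠ t : ℝ in 𝓝 0, t < 1 := eventually_lt_nhds one_pos
  obtain ⟨t, ⟨h3, h4⟩, h5⟩ := (((h1.and h2).filter_mono nhdsWithin_le_nhds).and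
    (self_mem_nhdsWithin (s := Ioi (0 : ℝ)))).exists
  have h5' : 0 < t := h5
  refine ⟨t, d * ∑ i, N i + 1, h5', h4.le, Nat.succ_pos _, fun i y hy hy1 => ?_⟩
  have a1 : y ^ (d * ∑ i, N i + 1) ≤ y ^ (d * N i) :=
    pow_le_pow_of_le_one hy.le hy1 ((Nat.mul_le_mul_left d
      (Finset.single_le_sum (fun j _ => Nat.zero_le (N j)) (Finset.mem_univ i))).trans
        (Nat.le_succ _))
  have a2 := mul_lt_mul_of_pos_right (h3 i) (pow_pos hy (d * N i))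
  have a3 := mul_le_mul_of_nonneg_left a1 (show 0 ≤ C i * 2 ^ d * t by
    have := hC i; positivity)
  rw [mul_pow, ← pow_mul, one_pow]
  linarith

theorem phi_diff {F W : Type} [NormedAddCommGroup F] [NormedSpace ℂ F] [NormedAddCommGroup W]
    [NormedSpace ℂ W] {u : ℂ × F → ℂ} {O : Set (ℂ × F)} {p : ℂ × F} {r c : ℝ} {U : Set F} {d : ℕ}
    {α : F → Fin d → ℂ} (R : Roots u O p r c U α) {g : ℂ × F → W} (hg : DifferentiableOn ℂ g O)
    (T : Finset (W →L[ℂ] ℂ)) (i : ℕ) :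
    DifferentiableOn ℂ (fun z => Phi T i fun b => g (α z b, z)) U := by
  refine differentiableOn_pi.2 fun q => ?_
  by_cases h : i ≤ q.2
  · simp only [Phi, h, if_true]
    exact R.hol (fun x => q.1.1 (g x)) (q.1.1.differentiable.comp_differentiableOn hg) q.2
  · simp only [Phi, h, if_false]
    exact differentiableOn_const _

end LJS

theorem bLJS (hW : St_WP) : St_LJS := by
  classical
  intro F _ _ _ hL W W' _ _ _ _ _ _ g f τ O p hO hp hg hf hgf hp0 hτ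
  have hv : DifferentiableOn ℂ (fun z => (g z, f z)) O := hg.prodMk hf
  obtain ⟨K, t, ht, hK⟩ := (((SV.H85.contDiffOn_nat hO 1 hv).contDiffAt
    (hO.mem_nhds hp)).exists_lipschitzOnWith)
  have h1 : ∀ᶠ z in 𝓝 p, ‖(g z, f z)‖ < 1 := by
    refine ((hv.continuousOn.continuousAt (hO.mem_nhds hp)).norm.tendsto).eventually_lt_const ?_
    simp [hp0, hgf p hp hp0]
  obtain ⟨O', hO', hO1, hO2⟩ := _root_.mem_nhds_iff.1 (inter_mem (hO.mem_nhds hp) (inter_mem ht h1))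
  have hOO : O' ⊆ O := fun z hz => (hO' hz).1
  obtain ⟨r, c, U, d, α, R⟩ := hW F (fun z => τ (g z)) O' p hO1 hO2
    (τ.differentiable.comp_differentiableOn (hg.mono hOO)) hτ
  have hin : ∀ z ∈ U, ∀ b, (α z b, z) ∈ O' := fun z hz b =>
    R.sub ⟨ball_subset_closedBall (R.root z hz b).1, hz⟩
  have hd : 0 < d := by
    rcases Nat.eq_zero_or_pos d with rfl | h
    · have := R.low p.2 R.mem p.1 (mem_closedBall_self R.r0.le)
      simp [hp0] at this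
      exact absurd R.c0 (not_lt.2 this)
    · exact h
  obtain ⟨T, c₁, a1, -, a3, a4⟩ := exists_Phi (W := W) d
  obtain ⟨T', c₂, b1, -, b3, b4⟩ := exists_Phi (W := W × W') d
  have key : ∀ i : Fin (d + 1), ∃ (N : ℕ) (C : ℝ), 0 < N ∧ 0 ≤ C ∧ ∀ᶠ z in 𝓝 p.2,
      ‖Phi T' i fun b => (g (α z b, z), f (α z b, z))‖ ^ N ≤
        C * ‖Phi T i fun b => g (α z b, z)‖ := by
    intro i
    refine hL _ _ _ _ U p.2 R.opn R.mem (LJS.phi_diff R (hg.mono hOO) T i)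
      (LJS.phi_diff R (hv.mono hOO) T' i) fun z hz h0 => ?_
    refine Phi_eq_zero b3 _ (S := Finset.univ.filter fun b => g (α z b, z) ≠ 0)
      (card_lt_of_Phi a1 a4 h0 fun b hb => (Finset.mem_filter.1 hb).2) fun b hb => ?_
    have h2 : g (α z b, z) = 0 := by simpa using hb
    simp [h2, hgf _ (hOO (hin z hz b)) h2]
  choose N C hN hC hev using key
  obtain ⟨c₀, N₀, e1, e2, e3, e4⟩ := LJS.unif N C hC b1
  obtain ⟨c₃, M, m1, m2, m3⟩ := cascade d e1 e2 e3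
  obtain ⟨C', k1, k2⟩ := LJS.last hd m2 K.coe_nonneg
    (div_nonneg (norm_nonneg τ) R.c0.le) m1
  refine ⟨M * d, C', Nat.mul_pos m2 hd, k1, ?_⟩
  have hz : ∀ᶠ z in 𝓝 p.2, z ∈ U ∧ ∀ b,
      c₃ * ‖(g (α z b, z), f (α z b, z))‖ ^ M ≤ ‖g (α z b, z)‖ := by
    filter_upwards [eventually_all.2 hev, R.opn.mem_nhds R.mem] with z hz hU
    have hle : ∀ b, ‖(g (α z b, z), f (α z b, z))‖ ≤ 1 := fun b => (hO' (hin z hU b)).2.2.le
    have hle' : ∀ b, ‖g (α z b, z)‖ ≤ ‖(g (α z b, z), f (α z b, z))‖ := fun b =>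
      norm_fst_le (g (α z b, z), f (α z b, z))
    refine ⟨hU, m3 _ _ (fun b => norm_nonneg _) hle' hle fun y hy hy1 => ?_⟩
    by_contra hlt
    set S := Finset.univ.filter fun b => y ≤ ‖(g (α z b, z), f (α z b, z))‖ with hS
    have hi : S.card < d + 1 := Nat.lt_succ_of_le (by simpa using Finset.card_le_univ S)
    have q1 := b4 (fun b => (g (α z b, z), f (α z b, z))) y hy hy1 S
      (fun b hb => (Finset.mem_filter.1 hb).2) S.card le_rfl
    have q2 := Phi_upper a3 (fun b => g (α z b, z)) le_rfl (fun b => (hle' b).trans (hle b))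
      (y := c₀ * y ^ N₀) (by positivity) (not_le.1 hlt) fun b hb => by
        have : ¬ c₀ * y ^ N₀ ≤ ‖g (α z b, z)‖ := by simpa using hb
        exact (not_le.1 this).le
    have q3 := hz ⟨S.card, hi⟩
    have q4 := e4 ⟨S.card, hi⟩ y hy hy1
    have q5 := pow_le_pow_left₀ (by positivity) q1 (N ⟨S.card, hi⟩)
    have q6 := mul_le_mul_of_nonneg_left q2 (hC ⟨S.card, hi⟩)
    exact absurd (q5.trans (q3.trans q6)) (not_le.2 q4)
  filter_upwards [continuousAt_snd.tendsto.eventually hz,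
    continuousAt_fst.tendsto.eventually (closedBall_mem_nhds p.1 R.r0)] with x hx hw
  obtain ⟨hU, hx⟩ := hx
  have hxO : x ∈ O' := R.sub ⟨hw, hU⟩
  obtain ⟨b, -, hb⟩ := Finset.exists_min_image Finset.univ (fun b => ‖x.1 - α x.2 b‖)
    ⟨⟨0, hd⟩, Finset.mem_univ _⟩
  have l1 : ‖x.1 - α x.2 b‖ ^ d ≤ ∏ b, ‖x.1 - α x.2 b‖ := by
    have := Finset.prod_le_prod (s := Finset.univ) (f := fun _ : Fin d => ‖x.1 - α x.2 b‖)
      (fun _ _ => norm_nonneg _) hb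
    simpa using this
  have l2 : ‖(g x, f x) - (g (α x.2 b, x.2), f (α x.2 b, x.2))‖ ≤ K * ‖x.1 - α x.2 b‖ := by
    have := hK.dist_le_mul x (hO' hxO).2.1 _ (hO' (hin x.2 hU b)).2.1
    rwa [dist_eq_norm, Prod.dist_eq, dist_self, max_eq_left dist_nonneg, dist_eq_norm] at this
  have l3 : ‖g x - g (α x.2 b, x.2)‖ ≤ K * ‖x.1 - α x.2 b‖ :=
    (norm_fst_le ((g x, f x) - (g (α x.2 b, x.2), f (α x.2 b, x.2)))).trans l2
  refine k2 _ ‖(g (α x.2 b, x.2), f (α x.2 b, x.2))‖ _ ‖x.1 - α x.2 b‖ (norm_nonneg _)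
    (norm_nonneg _) (norm_nonneg _) ((norm_fst_le (g x, f x)).trans (hO' hxO).2.2.le)
    (norm_nonneg _) ?_ ((hx b).trans ?_) ((norm_snd_le (g x, f x)).trans ?_)
  · rw [div_mul_eq_mul_div, le_div_iff₀ R.c0, mul_comm]
    exact (mul_le_mul_of_nonneg_left l1 R.c0.le).trans
      ((R.low x.2 hU x.1 hw).trans (τ.le_opNorm _))
  · have := norm_sub_norm_le (g (α x.2 b, x.2)) (g x)
    rw [norm_sub_rev] at this
    linarith
  · have := norm_sub_norm_le (g x, f x) (g (α x.2 b, x.2), f (α x.2 b, x.2))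
    linarith

end Pool.Agent.Lib.LJ84
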