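import Pool.Agent.Lib.LJ84.Blue

/-! Project LJ: preparation. -/

open scoped Topology
open Set Filter Metric

noncomputable section

namespace Pool.Agent.Lib.LJ84

open Pool.Agent.Lib.SV

namespace WP

theorem newton {d : ℕ} (L : Fin d → ℂ) (k : ℕ) : (k : ℂ) * es L k = (-1) ^ (k + 1) *
    ∑ a ∈ Finset.HasAntidiagonal.antidiagonal k with a.1 < k, (-1) ^ a.1 * es L a.1 * ∑ b, L b ^ a.2 := by
  have := congrArg (MvPolynomial.aeval L) (MvPolynomial.mul_esymm_eq_sum (Fin d) ℂ k)
  simpa [MvPolynomial.esymm, MvPolynomial.psum, es] using this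

theorem es_hol {F : Type} [NormedAddCommGroup F] [NormedSpace ℂ F] {U : Set F} {d : ℕ}
    {L : F → Fin d → ℂ} (h : ∀ k : ℕ, DifferentiableOn ℂ (fun z => ∑ b, L z b ^ k) U) (k : ℕ) :
    DifferentiableOn ℂ (fun z => es (L z) k) U := by
  induction k using Nat.strong_induction_on with
  | _ k ih =>
    rcases k.eq_zero_or_pos with rfl | hk
    · simp [es]
    have k0 : (k : ℂ) ≠ 0 := Nat.cast_ne_zero.2 hk.ne'
    have e : (fun z => es (L z) k) = fun z => (k : ℂ)⁻¹ * ((-1) ^ (k + 1) *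
        ∑ a ∈ Finset.HasAntidiagonal.antidiagonal k with a.1 < k,
          (-1) ^ a.1 * es (L z) a.1 * ∑ b, L z b ^ a.2) := funext fun z => by
      rw [← newton, inv_mul_cancel_left₀ k0]
    rw [e]
    exact ((DifferentiableOn.fun_sum fun a ha =>
      ((ih _ (Finset.mem_filter.1 ha).2).const_mul _).mul (h _)).const_mul _).const_mul _

end WP

theorem bWP (hF : St_FAC) (hP : St_PAR) : St_WP := by
  intro F _ _ _ g O p hO hp hg hn
  have sl : ∀ z : F, Differentiable ℂ fun w : ℂ => (w, z) := fun z => by fun_prop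
  have op : ∀ z, IsOpen {w : ℂ | (w, z) ∈ O} := fun z => hO.preimage (sl z).continuous
  have sd : ∀ {h : ℂ × F → ℂ}, DifferentiableOn ℂ h O → ∀ z,
      DifferentiableOn ℂ (fun w => h (w, z)) {w : ℂ | (w, z) ∈ O} := fun hh z =>
    hh.comp (sl z).differentiableOn fun _ hw => hw
  have an := (sd hg p.2).analyticAt ((op p.2).mem_nhds hp)
  obtain ⟨ε, e0, he⟩ := Metric.eventually_nhds_iff_ball.1
    ((eventually_nhdsWithin_iff.1 (an.eventually_eq_zero_or_eventually_ne_zero.resolve_left hn)).and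
      ((op p.2).eventually_mem hp))
  have r0 : 0 < ε / 2 := half_pos e0
  have sb : closedBall p.1 (ε / 2) ⊆ ball p.1 ε := closedBall_subset_ball (half_lt_self e0)
  obtain ⟨c, c0, hc⟩ := (isCompact_sphere p.1 (ε / 2)).exists_forall_le'
    (f := fun w => ‖g (w, p.2)‖) (a := 0)
    ((sd hg p.2).continuousOn.mono fun w hw => (he w (sb (sphere_subset_closedBall hw))).2).norm
    fun w hw => norm_pos_iff.2 ((he w (sb (sphere_subset_closedBall hw))).1
      (ne_of_mem_sphere hw r0.ne'))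
  have sw : ∀ w : ℂ, Tendsto (fun y : F × ℂ => (y.2, y.1)) (𝓝 (p.2, w)) (𝓝 (w, p.2)) :=
    fun w => continuous_swap.continuousAt
  have t1 : ∀ᶠ z in 𝓝 p.2, ∀ w ∈ closedBall p.1 (ε / 2), (w, z) ∈ O :=
    (isCompact_closedBall _ _).eventually_forall_of_forall_eventually fun w hw =>
      (sw w).eventually (hO.mem_nhds (he w (sb hw)).2)
  have t2 : ∀ᶠ z in 𝓝 p.2, ∀ w ∈ sphere p.1 (ε / 2), c / 2 ≤ ‖g (w, z)‖ :=
    (isCompact_sphere _ _).eventually_forall_of_forall_eventually fun w hw =>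
      (sw w).eventually ((hg.continuousOn.continuousAt
        (hO.mem_nhds (he w (sb (sphere_subset_closedBall hw))).2)).norm.eventually_const_le
          ((half_lt_self c0).trans_le (hc w hw)))
  obtain ⟨V, hV, oV, pV⟩ := _root_.eventually_nhds_iff.1 (t1.and t2)
  have fac := fun z (hz : z ∈ V) => hF (fun w => g (w, z)) _ p.1 _ _ (op z) r0 (half_pos c0)
    (hV z hz).1 (sd hg z) (hV z hz).2
  have par : ∀ h : ℂ × F → ℂ, DifferentiableOn ℂ h O → DifferentiableOn ℂ (fun z =>
      ∮ w in C(p.1, ε / 2), h (w, z) * deriv (fun w => g (w, z)) w / g (w, z)) V := fun h hh => by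
    have o' : IsOpen (O ∩ g ⁻¹' {0}ᶜ) :=
      hg.continuousOn.isOpen_inter_preimage hO isOpen_compl_singleton
    have := hP F (fun y => h y * fderiv ℂ g y (1, 0) / g y) _ V p.1 _ o' oV r0
      (fun y hy => ⟨(hV y.2 hy.2).1 _ (sphere_subset_closedBall hy.1),
        norm_pos_iff.1 ((half_pos c0).trans_le ((hV y.2 hy.2).2 _ hy.1))⟩)
      ((((hh.mul (H85.differentiableOn_fderiv_apply hO hg (1, 0))).mono inter_subset_left).mul
        ((hg.mono inter_subset_left).inv fun y hy => hy.2)).congr fun y _ => div_eq_mul_inv _ _)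
    refine this.congr fun z hz => circleIntegral.integral_congr r0.le fun w hw => ?_
    have hd := (hg.differentiableAt
      (hO.mem_nhds ((hV z hz).1 _ (sphere_subset_closedBall hw)))).hasFDerivAt
    have := hd.comp_hasDerivAt w ((hasDerivAt_id w).prodMk (hasDerivAt_const w z))
    rw [show deriv (fun w => g (w, z)) w = _ from this.deriv]
  have pi0 : (2 * Real.pi * Complex.I : ℂ) ≠ 0 := Complex.two_pi_I_ne_zero
  choose d α h1 h2 h3 using fac
  have dc : ∀ᶠ z in 𝓝 p.2, ∀ hz : z ∈ V, d z hz = d p.2 pV := by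
    have := ((par 1 (differentiableOn_const _)).continuousOn.continuousAt (oV.mem_nhds pV)).const_mul
      (2 * Real.pi * Complex.I : ℂ)⁻¹
    filter_upwards [this.eventually (ball_mem_nhds _ one_pos)] with z k hz
    have a := h3 z hz 1 (differentiableOn_const _)
    have b := h3 p.2 pV 1 (differentiableOn_const _)
    simp only [Pi.one_apply, Finset.sum_const, Finset.card_univ, Fintype.card_fin, nsmul_one] at a b
    simp only [Pi.one_apply, a, b, inv_mul_cancel_left₀ pi0, Complex.dist_eq] at k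
    have : |(d z hz : ℤ) - d p.2 pV| < 1 := by
      rw [← Int.cast_natCast, ← Int.cast_natCast (R := ℂ) (d p.2 pV), ← Int.cast_sub,
        Complex.norm_intCast] at k
      exact_mod_cast k
    have := Int.abs_lt_one_iff.1 this
    omega
  obtain ⟨U, hU, oU, pU⟩ := _root_.eventually_nhds_iff.1 (dc.and (oV.eventually_mem pV))
  have fac : ∀ z ∈ U, ∃ β : Fin (d p.2 pV) → ℂ, (∀ b, β b ∈ ball p.1 (ε / 2) ∧ g (β b, z) = 0) ∧
      (∀ w ∈ closedBall p.1 (ε / 2),
        c / 2 / (2 * (ε / 2)) ^ d p.2 pV * ∏ b, ‖w - β b‖ ≤ ‖g (w, z)‖) ∧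
      ∀ h : ℂ → ℂ, DifferentiableOn ℂ h {w : ℂ | (w, z) ∈ O} →
        (∮ w in C(p.1, ε / 2), h w * deriv (fun w => g (w, z)) w / g (w, z)) =
          2 * Real.pi * Complex.I * ∑ b, h (β b) := fun z hz => by
    rw [← (hU z hz).1 (hU z hz).2]
    exact ⟨_, h1 z _, h2 z _, h3 z _⟩
  choose! β k1 k2 k3 using fac
  refine ⟨ε / 2, _, U, _, β, r0, by positivity, oU, pU,
    fun y hy => (hV y.2 (hU _ hy.2).2).1 _ hy.1, k1, k2, fun h hh => WP.es_hol fun k => ?_⟩
  refine (((par _ (hh.pow k)).mono fun z hz => (hU z hz).2).const_mul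
    (2 * Real.pi * Complex.I : ℂ)⁻¹).congr fun z hz => ?_
  rw [k3 z hz _ (sd (hh.pow k) z), inv_mul_cancel_left₀ pi0]
  rfl

end Pool.Agent.Lib.LJ84
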