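import Pool.Agent.Lib.LJ84.B_FIN
import Pool.Agent.Lib.LJ84.B_DIR
import Pool.Agent.Lib.LJ84.B_DCS
import Pool.Agent.Lib.LJ84.B_LJS
import Pool.Agent.Lib.LJ84.B_WP
import Pool.Agent.Lib.LJ84.B_FAC
import Pool.Agent.Lib.LJ84.B_PAR

/-! Project LJ: assembly. -/

namespace Pool.Agent.Lib.LJ84

/-- The inequality of Lojasiewicz. -/
theorem loj : St_LOJ := bLOJ bDIR (bLJS (bWP bFAC bPAR))

/-- The chain condition. -/
theorem dcc : St_DCC := bDCC bDIR (bDCS (bWP bFAC bPAR))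

end Pool.Agent.Lib.LJ84
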