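import Pool.Agent.Lib.LJ84.Blue

/-! Project LJ: row FIN, the induction on the dimension. -/

open scoped Topology
open Set Filter Metric

noncomputable section

namespace Pool.Agent.Lib.LJ84

namespace FIN

variable {F : Type} [NormedAddCommGroup F] [NormedSpace ℂ F] [FiniteDimensional ℂ F]

theorem loj_step (hD : St_DIR) (hS : St_LJS)
    (ih : ∀ K : Submodule ℂ F, Module.finrank ℂ K + 1 = Module.finrank ℂ F → Loj K) : Loj F := by
  intro W W' _ _ _ _ _ _ g f O x hO hx hg hf h0
  have hn := hO.mem_nhds hx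
  by_cases h1 : g x = 0
  · by_cases h2 : g =ᶠ[𝓝 x] 0
    · refine ⟨1, 0, one_pos, le_rfl, ?_⟩
      filter_upwards [hn, h2] with z hz hz'
      simp [h0 z hz hz']
    · obtain ⟨i, hi⟩ : ∃ i, ¬(fun z => (Module.finBasis ℂ W).coord i (g z)) =ᶠ[𝓝 x] 0 := by
        by_contra hc
        refine h2 ((eventually_all.2 fun i => not_not.1 fun h => hc ⟨i, h⟩).mono fun z hz => ?_)
        exact (Module.finBasis ℂ W).forall_coord_eq_zero_iff.1 hz
      set τ : W →L[ℂ] ℂ := LinearMap.toContinuousLinearMap ((Module.finBasis ℂ W).coord i)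
      obtain ⟨K, e, hK, he⟩ := hD F (fun z => τ (g z)) O x hO hx
        (τ.differentiable.comp_differentiableOn hg) (by simp [h1]) hi
      obtain ⟨N, C, hN, hC, h⟩ := hS K (ih K hK) W W' (g ∘ e.symm) (f ∘ e.symm) τ (e.symm ⁻¹' O)
        (e x) (hO.preimage e.symm.continuous) (by simpa using hx)
        (hg.comp e.symm.differentiableOn fun _ h => h)
        (hf.comp e.symm.differentiableOn fun _ h => h) (fun z hz => h0 _ hz) (by simpa using h1) he
      exact ⟨N, C, hN, hC, ((e.continuous.tendsto x).eventually h).mono fun z hz => by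
        simpa using hz⟩
  · have hp : 0 < ‖g x‖ := norm_pos_iff.2 h1
    refine ⟨1, (‖f x‖ + 1) / (‖g x‖ / 2), one_pos, by positivity, ?_⟩
    filter_upwards [(hg.continuousOn.continuousAt hn).norm.eventually
      (lt_mem_nhds (half_lt_self hp)), (hf.continuousOn.continuousAt hn).norm.eventually
      (gt_mem_nhds (lt_add_one ‖f x‖))] with z hz hz'
    rw [pow_one, div_mul_eq_mul_div, le_div_iff₀ (half_pos hp)]
    exact mul_le_mul hz'.le hz.le (half_pos hp).le (by positivity)

theorem dcc_step (hD : St_DIR) (hS : St_DCS)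
    (ih : ∀ K : Submodule ℂ F, Module.finrank ℂ K + 1 = Module.finrank ℂ F → Dcc K) : Dcc F := by
  intro A g O x hO hx hg
  have hn := hO.mem_nhds hx
  by_cases h1 : ∀ a, g a x = 0
  · by_cases h2 : ∀ a, g a =ᶠ[𝓝 x] 0
    · obtain ⟨r, hr, hb⟩ := Metric.mem_nhds_iff.1 hn
      exact ⟨∅, mem_of_superset (ball_mem_nhds x hr) fun z hz _ a =>
        SV.H85.eq_zero_of_convex isOpen_ball (convex_ball x r) ((hg a).mono hb) (mem_ball_self hr)
          (h2 a) hz⟩
    · obtain ⟨a, ha⟩ := not_forall.1 h2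
      obtain ⟨K, e, hK, he⟩ := hD F (g a) O x hO hx (hg a) (h1 a) ha
      obtain ⟨s, h⟩ := hS K (ih K hK) A (fun a => g a ∘ e.symm) a (e.symm ⁻¹' O) (e x)
        (hO.preimage e.symm.continuous) (by simpa using hx)
        (fun a => (hg a).comp e.symm.differentiableOn fun _ h => h) he
      exact ⟨s, ((e.continuous.tendsto x).eventually h).mono fun z hz => by simpa using hz⟩
  · obtain ⟨a, ha⟩ := not_forall.1 h1
    exact ⟨{a}, (((hg a).continuousOn.continuousAt hn).eventually_ne ha).mono fun z hz h =>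
      absurd (h a (Finset.mem_singleton_self a)) hz⟩

theorem ind {P : ∀ (F : Type) [NormedAddCommGroup F] [NormedSpace ℂ F], Prop}
    (h : ∀ (F : Type) [NormedAddCommGroup F] [NormedSpace ℂ F] [FiniteDimensional ℂ F],
      (∀ K : Submodule ℂ F, Module.finrank ℂ K + 1 = Module.finrank ℂ F → P K) → P F) (n : ℕ) :
    ∀ (F : Type) [NormedAddCommGroup F] [NormedSpace ℂ F] [FiniteDimensional ℂ F],
      Module.finrank ℂ F = n → P F := by
  induction n with
  | zero => exact fun F _ _ _ hn => h F fun K hK => absurd (hK.trans hn) (Nat.succ_ne_zero _)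
  | succ n ih => exact fun F _ _ _ hn => h F fun K hK => ih K (Nat.succ_injective (hK.trans hn))

end FIN

theorem bLOJ (hD : St_DIR) (hS : St_LJS) : St_LOJ := fun F _ _ _ =>
  FIN.ind (P := fun F _ _ => Loj F) (fun _ _ _ _ => FIN.loj_step hD hS) _ F rfl

theorem bDCC (hD : St_DIR) (hS : St_DCS) : St_DCC := fun F _ _ _ =>
  FIN.ind (P := fun F _ _ => Dcc F) (fun _ _ _ _ => FIN.dcc_step hD hS) _ F rfl

end Pool.Agent.Lib.LJ84
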