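import Pool.Agent.Lib.LJ84.Sym
import Pool.Agent.Lib.SV.Hol85

/-! Project LJ: the inequality of Lojasiewicz and the descending chain condition for zero sets of
holomorphic functions. The statements of the rows. -/

open scoped Topology
open Set Filter Metric

noncomputable section

namespace Pool.Agent.Lib.LJ84

/-- One variable: the zeros in a disc. -/
def St_FAC : Prop := ∀ (g : ℂ → ℂ) (O : Set ℂ) (a : ℂ) (r c : ℝ), IsOpen O → 0 < r → 0 < c →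
  closedBall a r ⊆ O → DifferentiableOn ℂ g O → (∀ w ∈ sphere a r, c ≤ ‖g w‖) →
  ∃ (d : ℕ) (α : Fin d → ℂ), (∀ b, α b ∈ ball a r ∧ g (α b) = 0) ∧
    (∀ w ∈ closedBall a r, c / (2 * r) ^ d * ∏ b, ‖w - α b‖ ≤ ‖g w‖) ∧
    ∀ h : ℂ → ℂ, DifferentiableOn ℂ h O →
      (∮ w in C(a, r), h w * deriv g w / g w) = 2 * Real.pi * Complex.I * ∑ b, h (α b)

/-- Circle integrals depend holomorphically on parameters. -/
def St_PAR : Prop := ∀ (F : Type) [NormedAddCommGroup F] [NormedSpace ℂ F] [FiniteDimensional ℂ F]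
  (H : ℂ × F → ℂ) (O : Set (ℂ × F)) (U : Set F) (a : ℂ) (r : ℝ), IsOpen O → IsOpen U → 0 < r →
  sphere a r ×ˢ U ⊆ O → DifferentiableOn ℂ H O →
  DifferentiableOn ℂ (fun z => ∮ w in C(a, r), H (w, z)) U

/-- The roots `α z` of `g (·, z)` in a disc. -/
structure Roots {F : Type} [NormedAddCommGroup F] [NormedSpace ℂ F] (g : ℂ × F → ℂ)
    (O : Set (ℂ × F)) (p : ℂ × F) (r c : ℝ) (U : Set F) {d : ℕ} (α : F → Fin d → ℂ) : Prop where
  r0 : 0 < r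
  c0 : 0 < c
  opn : IsOpen U
  mem : p.2 ∈ U
  sub : closedBall p.1 r ×ˢ U ⊆ O
  root : ∀ z ∈ U, ∀ b, α z b ∈ ball p.1 r ∧ g (α z b, z) = 0
  low : ∀ z ∈ U, ∀ w ∈ closedBall p.1 r, c * ∏ b, ‖w - α z b‖ ≤ ‖g (w, z)‖
  hol : ∀ h : ℂ × F → ℂ, DifferentiableOn ℂ h O → ∀ k,
    DifferentiableOn ℂ (fun z => es (fun b => h (α z b, z)) k) U

/-- Preparation. -/
def St_WP : Prop := ∀ (F : Type) [NormedAddCommGroup F] [NormedSpace ℂ F] [FiniteDimensional ℂ F]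
  (g : ℂ × F → ℂ) (O : Set (ℂ × F)) (p : ℂ × F), IsOpen O → p ∈ O → DifferentiableOn ℂ g O →
  ¬ (fun w => g (w, p.2)) =ᶠ[𝓝 p.1] 0 →
  ∃ (r c : ℝ) (U : Set F) (d : ℕ) (α : F → Fin d → ℂ), Roots g O p r c U α

/-- A good direction. -/
def St_DIR : Prop := ∀ (F : Type) [NormedAddCommGroup F] [NormedSpace ℂ F] [FiniteDimensional ℂ F]
  (g : F → ℂ) (O : Set F) (x : F), IsOpen O → x ∈ O → DifferentiableOn ℂ g O → g x = 0 →
  ¬ g =ᶠ[𝓝 x] 0 → ∃ (K : Submodule ℂ F) (e : F ≃L[ℂ] ℂ × K),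
    Module.finrank ℂ K + 1 = Module.finrank ℂ F ∧
    ¬ (fun w => g (e.symm (w, (e x).2))) =ᶠ[𝓝 (e x).1] 0

/-- The inequality at the points of `F`. -/
def Loj (F : Type) [NormedAddCommGroup F] [NormedSpace ℂ F] : Prop :=
  ∀ (W W' : Type) [NormedAddCommGroup W] [NormedSpace ℂ W] [FiniteDimensional ℂ W]
    [NormedAddCommGroup W'] [NormedSpace ℂ W'] [FiniteDimensional ℂ W'] (g : F → W) (f : F → W')
    (O : Set F) (x : F), IsOpen O → x ∈ O → DifferentiableOn ℂ g O → DifferentiableOn ℂ f O →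
    (∀ z ∈ O, g z = 0 → f z = 0) →
    ∃ (N : ℕ) (C : ℝ), 0 < N ∧ 0 ≤ C ∧ ∀ᶠ z in 𝓝 x, ‖f z‖ ^ N ≤ C * ‖g z‖

/-- The chain condition at the points of `F`. -/
def Dcc (F : Type) [NormedAddCommGroup F] [NormedSpace ℂ F] : Prop :=
  ∀ (A : Type) (g : A → F → ℂ) (O : Set F) (x : F), IsOpen O → x ∈ O →
    (∀ a, DifferentiableOn ℂ (g a) O) →
    ∃ s : Finset A, ∀ᶠ z in 𝓝 x, (∀ a ∈ s, g a z = 0) → ∀ a, g a z = 0

/-- The step of the inequality. -/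
def St_LJS : Prop := ∀ (F : Type) [NormedAddCommGroup F] [NormedSpace ℂ F] [FiniteDimensional ℂ F],
  Loj F → ∀ (W W' : Type) [NormedAddCommGroup W] [NormedSpace ℂ W] [FiniteDimensional ℂ W]
    [NormedAddCommGroup W'] [NormedSpace ℂ W'] [FiniteDimensional ℂ W'] (g : ℂ × F → W)
    (f : ℂ × F → W') (τ : W →L[ℂ] ℂ) (O : Set (ℂ × F)) (p : ℂ × F), IsOpen O → p ∈ O →
    DifferentiableOn ℂ g O → DifferentiableOn ℂ f O → (∀ z ∈ O, g z = 0 → f z = 0) → g p = 0 →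
    ¬ (fun w => τ (g (w, p.2))) =ᶠ[𝓝 p.1] 0 →
    ∃ (N : ℕ) (C : ℝ), 0 < N ∧ 0 ≤ C ∧ ∀ᶠ z in 𝓝 p, ‖f z‖ ^ N ≤ C * ‖g z‖

/-- The step of the chain condition. -/
def St_DCS : Prop := ∀ (F : Type) [NormedAddCommGroup F] [NormedSpace ℂ F] [FiniteDimensional ℂ F],
  Dcc F → ∀ (A : Type) (g : A → ℂ × F → ℂ) (a₀ : A) (O : Set (ℂ × F)) (p : ℂ × F), IsOpen O →
    p ∈ O → (∀ a, DifferentiableOn ℂ (g a) O) → ¬ (fun w => g a₀ (w, p.2)) =ᶠ[𝓝 p.1] 0 →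
    ∃ s : Finset A, ∀ᶠ z in 𝓝 p, (∀ a ∈ s, g a z = 0) → ∀ a, g a z = 0

/-- The inequality of Lojasiewicz. -/
def St_LOJ : Prop := ∀ (F : Type) [NormedAddCommGroup F] [NormedSpace ℂ F] [FiniteDimensional ℂ F],
  Loj F

/-- The chain condition. -/
def St_DCC : Prop := ∀ (F : Type) [NormedAddCommGroup F] [NormedSpace ℂ F] [FiniteDimensional ℂ F],
  Dcc F

end Pool.Agent.Lib.LJ84
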