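import Mathlib

/-! Elementary symmetric functions measure how many of finitely many vectors are large. -/

open Finset

noncomputable section

namespace Pool.Agent.Lib.LJ84

theorem cnt_step (s : ℕ → ℕ) (d : ℕ) (h : ∀ j, s j ≤ d) : ∃ j ≤ d, s (j + 1) ≤ s j := by
  by_contra hc
  push Not at hc
  have key : ∀ j ≤ d + 1, j ≤ s j := by
    intro j
    induction j with
    | zero => intro _; exact Nat.zero_le _
    | succ j ih =>
      intro hj
      have h1 := ih (by omega)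
      have h2 := hc j (by omega)
      omega
  have h1 := key (d + 1) le_rfl
  have h2 := h (d + 1)
  omega

/-- The elementary symmetric function of degree `k`. -/
def es {d : ℕ} (L : Fin d → ℂ) (k : ℕ) : ℂ := ∑ A ∈ powersetCard k univ, ∏ b ∈ A, L b

theorem card_pc_le (d k : ℕ) : ((powersetCard k (univ : Finset (Fin d))).card : ℝ) ≤ 2 ^ d := by
  rw [card_powersetCard, card_univ, Fintype.card_fin]
  exact_mod_cast Nat.choose_le_two_pow d k

theorem es_upper {d : ℕ} (L : Fin d → ℂ) {A y : ℝ} (hA : 1 ≤ A) (hL : ∀ b, ‖L b‖ ≤ A)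
    (hy : 0 ≤ y) {S : Finset (Fin d)} {k : ℕ} (hk : S.card < k) (hS : ∀ b ∉ S, ‖L b‖ ≤ y) :
    ‖es L k‖ ≤ 2 ^ d * A ^ d * y := by
  have h1 : ∀ B ∈ powersetCard k (univ : Finset (Fin d)), ‖∏ b ∈ B, L b‖ ≤ A ^ d * y := by
    intro B hB
    have hc := (mem_powersetCard.1 hB).2
    obtain ⟨b, hb, hbS⟩ := exists_mem_notMem_of_card_lt_card (s := S) (t := B) (by omega)
    rw [← mul_prod_erase B L hb, norm_mul, mul_comm, norm_prod]
    refine mul_le_mul ?_ (hS b hbS) (norm_nonneg _) (by positivity)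
    calc ∏ i ∈ B.erase b, ‖L i‖ ≤ ∏ _i ∈ B.erase b, A :=
          prod_le_prod (fun _ _ => norm_nonneg _) fun i _ => hL i
      _ = A ^ (B.erase b).card := prod_const A
      _ ≤ A ^ d := pow_le_pow_right₀ hA (by simpa using card_le_univ (B.erase b))
  calc ‖es L k‖ ≤ ∑ B ∈ powersetCard k univ, ‖∏ b ∈ B, L b‖ := norm_sum_le _ _
    _ ≤ (powersetCard k (univ : Finset (Fin d))).card • (A ^ d * y) := sum_le_card_nsmul _ _ _ h1
    _ ≤ 2 ^ d * (A ^ d * y) := by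
        rw [nsmul_eq_mul]
        exact mul_le_mul_of_nonneg_right (card_pc_le d k) (by positivity)
    _ = _ := by ring

theorem prod_gap {d : ℕ} (a : Fin d → ℝ) (ha : ∀ b, 0 ≤ a b) {ρ κ : ℝ} (hρ : 0 ≤ ρ) (hκ : 0 ≤ κ)
    (hκ1 : κ ≤ 1) {T B : Finset (Fin d)} (hT : ∀ b ∈ T, ρ ≤ a b) (hT' : ∀ b ∉ T, a b ≤ κ * ρ)
    (hc : B.card = T.card) (hne : B ≠ T) : ∏ b ∈ B, a b ≤ κ * ∏ b ∈ T, a b := by
  have hm : (B \ T).card = (T \ B).card := card_sdiff_comm hc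
  have hpos : (B \ T).card ≠ 0 := by
    intro h0
    exact hne (eq_of_subset_of_card_le (sdiff_eq_empty_iff_subset.1 (card_eq_zero.1 h0)) hc.ge)
  have h1 : ∏ b ∈ B \ T, a b ≤ κ * ∏ b ∈ T \ B, a b := by
    calc ∏ b ∈ B \ T, a b ≤ ∏ _b ∈ B \ T, κ * ρ :=
          prod_le_prod (fun b _ => ha b) fun b hb => hT' b (mem_sdiff.1 hb).2
      _ = κ ^ (B \ T).card * ρ ^ (T \ B).card := by rw [prod_const, mul_pow, hm]
      _ ≤ κ * ∏ b ∈ T \ B, a b := by
          refine mul_le_mul (pow_le_of_le_one hκ hκ1 hpos) ?_ (by positivity) hκ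
          rw [← prod_const]
          exact prod_le_prod (fun _ _ => hρ) fun b hb => hT b (mem_sdiff.1 hb).1
  rw [← prod_inter_mul_prod_sdiff B T a, ← prod_inter_mul_prod_sdiff T B a, inter_comm T B,
    mul_left_comm]
  exact mul_le_mul_of_nonneg_left h1 (prod_nonneg fun b _ => ha b)

theorem es_lower (d : ℕ) : ∃ c : ℝ, 0 < c ∧ ∀ (L : Fin d → ℂ) (y : ℝ), 0 < y → y ≤ 1 →
    ∀ S : Finset (Fin d), (∀ b ∈ S, y ≤ ‖L b‖) →
      ∃ k ≤ d, S.card ≤ k ∧ c * y ^ d ≤ ‖es L k‖ := by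
  set κ : ℝ := 1 / (2 * 2 ^ d) with hκ
  have hκ0 : 0 < κ := by positivity
  have h2d : (1 : ℝ) ≤ 2 ^ d := one_le_pow₀ (by norm_num)
  have hκ1 : κ ≤ 1 := by rw [hκ, div_le_one (by positivity)]; linarith
  refine ⟨(κ ^ d) ^ d / 2, by positivity, fun L y hy hy1 S hS => ?_⟩
  obtain ⟨j, hj, hs⟩ := cnt_step (fun j => (univ.filter fun b => y * κ ^ j ≤ ‖L b‖).card) d
    fun j => by simpa using card_le_univ (univ.filter fun b => y * κ ^ j ≤ ‖L b‖)
  set T := univ.filter fun b => y * κ ^ j ≤ ‖L b‖ with hT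
  have hρ : 0 < y * κ ^ j := by positivity
  have hρy : y * κ ^ j ≤ y := mul_le_of_le_one_right hy.le (pow_le_one₀ hκ0.le hκ1)
  have hT1 : ∀ b ∈ T, y * κ ^ j ≤ ‖L b‖ := fun b hb => (mem_filter.1 hb).2
  have hsub : T ⊆ univ.filter fun b => y * κ ^ (j + 1) ≤ ‖L b‖ := fun b hb =>
    mem_filter.2 ⟨mem_univ _, le_trans (by rw [pow_succ, ← mul_assoc]; nlinarith) (hT1 b hb)⟩
  have heq := eq_of_subset_of_card_le hsub hs
  have hT2 : ∀ b ∉ T, ‖L b‖ ≤ κ * (y * κ ^ j) := by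
    intro b hb
    rw [heq, mem_filter, not_and, not_le] at hb
    have := hb (mem_univ _)
    rw [pow_succ] at this
    linarith
  have hTd : T.card ≤ d := by simpa using card_le_univ T
  refine ⟨T.card, hTd,
    card_le_card fun b hb => mem_filter.2 ⟨mem_univ _, hρy.trans (hS b hb)⟩, ?_⟩
  have hmem : T ∈ powersetCard T.card (univ : Finset (Fin d)) :=
    mem_powersetCard.2 ⟨subset_univ _, rfl⟩
  set P := ∏ b ∈ T, ‖L b‖ with hP
  have hP0 : 0 ≤ P := prod_nonneg fun _ _ => norm_nonneg _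
  have hrest : ‖∑ B ∈ (powersetCard T.card univ).erase T, ∏ b ∈ B, L b‖ ≤ P / 2 := by
    calc _ ≤ ∑ B ∈ (powersetCard T.card univ).erase T, ‖∏ b ∈ B, L b‖ := norm_sum_le _ _
      _ ≤ ((powersetCard T.card (univ : Finset (Fin d))).erase T).card • (κ * P) := by
          refine sum_le_card_nsmul _ _ _ fun B hB => ?_
          rw [norm_prod]
          exact prod_gap (fun b => ‖L b‖) (fun _ => norm_nonneg _) hρ.le hκ0.le hκ1 hT1 hT2
            (mem_powersetCard.1 (mem_of_mem_erase hB)).2 (ne_of_mem_erase hB)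
      _ ≤ 2 ^ d * (κ * P) := by
          rw [nsmul_eq_mul]
          refine mul_le_mul_of_nonneg_right (le_trans ?_ (card_pc_le d T.card)) (by positivity)
          exact_mod_cast card_erase_le
      _ = P / 2 := by rw [hκ]; field_simp
  have hPl : (κ ^ d) ^ d * y ^ d ≤ P := by
    calc (κ ^ d) ^ d * y ^ d = (y * κ ^ d) ^ d := by rw [mul_pow, mul_comm]
      _ ≤ (y * κ ^ j) ^ d := pow_le_pow_left₀ (by positivity)
          (mul_le_mul_of_nonneg_left (pow_le_pow_of_le_one hκ0.le hκ1 hj) hy.le) d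
      _ ≤ (y * κ ^ j) ^ T.card := pow_le_pow_of_le_one hρ.le (hρy.trans hy1) hTd
      _ = ∏ _b ∈ T, y * κ ^ j := (prod_const _).symm
      _ ≤ P := prod_le_prod (fun _ _ => hρ.le) hT1
  have h3 := norm_sub_le (es L T.card) (∑ B ∈ (powersetCard T.card univ).erase T, ∏ b ∈ B, L b)
  rw [es, ← add_sum_erase _ _ hmem, add_sub_cancel_right, norm_prod, ← hP] at h3
  rw [es, ← add_sum_erase _ _ hmem]
  linarith

variable {W : Type*} [NormedAddCommGroup W] [NormedSpace ℂ W]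

theorem good [FiniteDimensional ℂ W] (d : ℕ) :
    ∃ (T : Finset (W →L[ℂ] ℂ)) (c : ℝ), 0 < c ∧ c ≤ 1 ∧ (∀ τ ∈ T, ‖τ‖ ≤ 1) ∧
      ∀ v : Fin d → W, ∃ τ ∈ T, ∀ b, c * ‖v b‖ ≤ ‖τ (v b)‖ := by
  classical
  rcases subsingleton_or_nontrivial W with hW | hW
  · refine ⟨{0}, 1, one_pos, le_rfl, by simp, fun v => ⟨0, by simp, fun b => ?_⟩⟩
    simp [Subsingleton.elim (v b) 0]
  have : ProperSpace W := FiniteDimensional.proper ℂ W
  have hK : IsCompact (Set.pi Set.univ fun _ : Fin d => Metric.sphere (0 : W) 1) :=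
    isCompact_univ_pi fun _ => isCompact_sphere _ _
  have key : ∃ (T : Finset (W →L[ℂ] ℂ)) (c : ℝ), 0 < c ∧ c ≤ 1 ∧ (∀ τ ∈ T, ‖τ‖ ≤ 1) ∧
      ∀ v ∈ Set.pi Set.univ fun _ : Fin d => Metric.sphere (0 : W) 1,
        ∃ τ ∈ T, ∀ b, c ≤ ‖τ (v b)‖ := by
    refine hK.induction_on (p := fun K => ∃ (T : Finset (W →L[ℂ] ℂ)) (c : ℝ), 0 < c ∧ c ≤ 1 ∧
      (∀ τ ∈ T, ‖τ‖ ≤ 1) ∧ ∀ v ∈ K, ∃ τ ∈ T, ∀ b, c ≤ ‖τ (v b)‖)
      ⟨∅, 1, one_pos, le_rfl, by simp, by simp⟩ ?_ ?_ ?_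
    · rintro s t hst ⟨T, c, h1, h2, h3, h4⟩
      exact ⟨T, c, h1, h2, h3, fun v hv => h4 v (hst hv)⟩
    · rintro s t ⟨T, c, h1, h2, h3, h4⟩ ⟨T', c', h1', h2', h3', h4'⟩
      refine ⟨T ∪ T', min c c', lt_min h1 h1', (min_le_left _ _).trans h2,
        fun τ hτ => (mem_union.1 hτ).elim (h3 τ) (h3' τ), ?_⟩
      rintro v (hv | hv)
      · obtain ⟨τ, hτ, h⟩ := h4 v hv
        exact ⟨τ, mem_union_left _ hτ, fun b => (min_le_left _ _).trans (h b)⟩
      · obtain ⟨τ, hτ, h⟩ := h4' v hv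
        exact ⟨τ, mem_union_right _ hτ, fun b => (min_le_right _ _).trans (h b)⟩
    · intro v hv
      obtain ⟨f, hf⟩ := Module.exists_dual_forall_apply_ne_zero (K := ℂ) v fun b h0 => by
        have := hv b (Set.mem_univ _)
        simp [h0] at this
      set τ0 : W →L[ℂ] ℂ := LinearMap.toContinuousLinearMap f
      set τ : W →L[ℂ] ℂ := ((‖τ0‖ + 1 : ℝ) : ℂ)⁻¹ • τ0 with hτ
      have hp : 0 < ‖τ0‖ + 1 := by positivity
      have hτ1 : ‖τ‖ ≤ 1 := by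
        rw [hτ, norm_smul, norm_inv, Complex.norm_real, Real.norm_of_nonneg hp.le,
          inv_mul_le_iff₀ hp]
        linarith
      have hτ2 : ∀ b, 0 < ‖τ (v b)‖ := fun b => norm_pos_iff.2 (by
        rw [hτ, smul_apply]
        exact smul_ne_zero (inv_ne_zero (Complex.ofReal_ne_zero.2 hp.ne')) (hf b))
      obtain ⟨c, hc, hc'⟩ : ∃ c : ℝ, 0 < c ∧ ∀ b, c < ‖τ (v b)‖ := by
        have : ∀ᶠ c in nhdsWithin (0 : ℝ) (Set.Ioi 0), ∀ b, c < ‖τ (v b)‖ :=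
          Filter.eventually_all.2 fun b => nhdsWithin_le_nhds (gt_mem_nhds (hτ2 b))
        exact (this.and self_mem_nhdsWithin).exists.imp fun c h => ⟨h.2, h.1⟩
      have hev : ∀ᶠ u in nhds v, ∀ b, c < ‖τ (u b)‖ :=
        Filter.eventually_all.2 fun b =>
          (continuous_const.continuousAt).eventually_lt
            ((τ.continuous.comp (continuous_apply b)).norm.continuousAt) (hc' b)
      exact ⟨_, nhdsWithin_le_nhds hev, {τ}, min c 1, lt_min hc one_pos, min_le_right _ _,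
        by simpa using hτ1, fun u hu => ⟨τ, mem_singleton_self _,
          fun b => (min_le_left _ _).trans (hu b).le⟩⟩
  obtain ⟨T, c, h1, h2, h3, h4⟩ := key
  obtain ⟨e, he⟩ := exists_norm_eq W zero_le_one
  refine ⟨T, c, h1, h2, h3, fun v => ?_⟩
  obtain ⟨τ, hτ, h⟩ := h4 (fun b => if v b = 0 then e else ((‖v b‖ : ℝ) : ℂ)⁻¹ • v b)
    fun b _ => by
      rw [mem_sphere_zero_iff_norm]
      beta_reduce
      split_ifs with h0
      · exact he
      · rw [norm_smul, norm_inv, Complex.norm_real, norm_norm,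
          inv_mul_cancel₀ (norm_ne_zero_iff.2 h0)]
  refine ⟨τ, hτ, fun b => ?_⟩
  by_cases h0 : v b = 0
  · simp [h0]
  have h5 := h b
  simp only [if_neg h0, map_smul, norm_smul, norm_inv, Complex.norm_real, norm_norm] at h5
  rwa [le_inv_mul_iff₀ (norm_pos_iff.2 h0), mul_comm] at h5

/-- The symmetric functions of degree at least `i` of the values of finitely many forms. -/
def Phi {d : ℕ} (T : Finset (W →L[ℂ] ℂ)) (i : ℕ) (v : Fin d → W) : T × Fin (d + 1) → ℂ :=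
  fun p => if i ≤ p.2 then es (fun b => p.1.1 (v b)) p.2 else 0

theorem Phi_upper {d : ℕ} {T : Finset (W →L[ℂ] ℂ)} (hT : ∀ τ ∈ T, ‖τ‖ ≤ 1) (v : Fin d → W)
    {A y : ℝ} (hA : 1 ≤ A) (hL : ∀ b, ‖v b‖ ≤ A) (hy : 0 ≤ y) {S : Finset (Fin d)} {i : ℕ}
    (hk : S.card < i) (hS : ∀ b ∉ S, ‖v b‖ ≤ y) : ‖Phi T i v‖ ≤ 2 ^ d * A ^ d * y := by
  refine (pi_norm_le_iff_of_nonneg (by positivity)).2 fun p => ?_
  have h : ∀ b, ‖p.1.1 (v b)‖ ≤ ‖v b‖ := fun b =>
    (p.1.1.le_of_opNorm_le (hT _ p.1.2) _).trans (one_mul _).le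
  unfold Phi
  split_ifs with hi
  · exact es_upper _ hA (fun b => (h b).trans (hL b)) hy (hk.trans_le hi)
      fun b hb => (h b).trans (hS b hb)
  · rw [norm_zero]; positivity

theorem exists_Phi [FiniteDimensional ℂ W] (d : ℕ) :
    ∃ (T : Finset (W →L[ℂ] ℂ)) (c : ℝ), 0 < c ∧ c ≤ 1 ∧ (∀ τ ∈ T, ‖τ‖ ≤ 1) ∧
      ∀ (v : Fin d → W) (y : ℝ), 0 < y → y ≤ 1 → ∀ S : Finset (Fin d), (∀ b ∈ S, y ≤ ‖v b‖) →
        ∀ i ≤ S.card, c * y ^ d ≤ ‖Phi T i v‖ := by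
  obtain ⟨T, c, h1, h2, h3, h4⟩ := good (W := W) d
  obtain ⟨c', hc', h5⟩ := es_lower d
  refine ⟨T, min 1 (c' * c ^ d), lt_min one_pos (by positivity), min_le_left _ _, h3,
    fun v y hy hy1 S hS i hi => ?_⟩
  obtain ⟨τ, hτ, h⟩ := h4 v
  obtain ⟨k, hk, hk', h6⟩ := h5 (fun b => τ (v b)) (c * y) (by positivity)
    (mul_le_one₀ h2 hy.le hy1) S fun b hb =>
      (mul_le_mul_of_nonneg_left (hS b hb) h1.le).trans (h b)
  have h7 := norm_le_pi_norm (Phi T i v) (⟨τ, hτ⟩, ⟨k, Nat.lt_succ_of_le hk⟩)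
  simp only [Phi, if_pos (hi.trans hk')] at h7
  refine le_trans (mul_le_mul_of_nonneg_right (min_le_right _ _) (by positivity)) ?_
  rw [mul_assoc, ← mul_pow]
  exact h6.trans h7

/-- Vanishing of `Phi` counts the nonzero vectors. -/
theorem Phi_eq_zero {d : ℕ} {T : Finset (W →L[ℂ] ℂ)} (hT : ∀ τ ∈ T, ‖τ‖ ≤ 1) (v : Fin d → W)
    {S : Finset (Fin d)} {i : ℕ} (hk : S.card < i) (hS : ∀ b ∉ S, v b = 0) : Phi T i v = 0 := by
  have h := Phi_upper hT v (A := 1 + ∑ b, ‖v b‖)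
    (le_add_of_nonneg_right (sum_nonneg fun _ _ => norm_nonneg _))
    (fun b => le_add_of_nonneg_of_le zero_le_one
      (single_le_sum (f := fun b => ‖v b‖) (fun _ _ => norm_nonneg _) (mem_univ b)))
    le_rfl hk fun b hb => by rw [hS b hb, norm_zero]
  rw [mul_zero] at h
  exact norm_le_zero_iff.1 h

theorem card_lt_of_Phi {d : ℕ} {T : Finset (W →L[ℂ] ℂ)} {c : ℝ} (hc : 0 < c)
    (h : ∀ (v : Fin d → W) (y : ℝ), 0 < y → y ≤ 1 → ∀ S : Finset (Fin d),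
      (∀ b ∈ S, y ≤ ‖v b‖) → ∀ i ≤ S.card, c * y ^ d ≤ ‖Phi T i v‖)
    {v : Fin d → W} {i : ℕ} (h0 : Phi T i v = 0) {S : Finset (Fin d)} (hS : ∀ b ∈ S, v b ≠ 0) :
    S.card < i := by
  by_contra hi
  have : ∀ᶠ y in nhdsWithin (0 : ℝ) (Set.Ioi 0), y < 1 ∧ ∀ b ∈ S, y < ‖v b‖ :=
    nhdsWithin_le_nhds ((gt_mem_nhds one_pos).and ((Filter.eventually_all_finset S).2
      fun b hb => gt_mem_nhds (norm_pos_iff.2 (hS b hb))))
  obtain ⟨y, ⟨h1, h2⟩, hy⟩ := (this.and self_mem_nhdsWithin).exists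
  have h3 := h v y hy h1.le S (fun b hb => (h2 b hb).le) i (not_lt.1 hi)
  rw [h0, norm_zero] at h3
  have : 0 < c * y ^ d := mul_pos hc (pow_pos hy d)
  linarith

/-- The cascade of scales. -/
theorem cascade (d : ℕ) {c : ℝ} (hc : 0 < c) (hc1 : c ≤ 1) {N : ℕ} (hN : 0 < N) :
    ∃ (c' : ℝ) (M : ℕ), 0 < c' ∧ 0 < M ∧ ∀ G V : Fin d → ℝ, (∀ b, 0 ≤ G b) → (∀ b, G b ≤ V b) →
      (∀ b, V b ≤ 1) → (∀ y, 0 < y → y ≤ 1 → (univ.filter fun b => y ≤ V b).card ≤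
        (univ.filter fun b => c * y ^ N ≤ G b).card) → ∀ b, c' * V b ^ M ≤ G b := by
  have hit : ∀ j : ℕ, ∃ (c' : ℝ) (M : ℕ), 0 < c' ∧ 0 < M ∧
      ∀ y : ℝ, (fun y => c * y ^ N)^[j] y = c' * y ^ M := by
    intro j
    induction j with
    | zero => exact ⟨1, 1, one_pos, one_pos, by simp⟩
    | succ j ih =>
      obtain ⟨c', M, h1, h2, h3⟩ := ih
      refine ⟨c * c' ^ N, M * N, by positivity, by positivity, fun y => ?_⟩
      rw [Function.iterate_succ_apply', h3, mul_pow, pow_mul, mul_assoc]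
  obtain ⟨c', M, h1, h2, h3⟩ := hit (d + 1)
  refine ⟨c', M, h1, h2, fun G V hG hGV hV H b => ?_⟩
  rcases ((hG b).trans (hGV b)).eq_or_lt with h0 | h0
  · rw [← h0, zero_pow h2.ne', mul_zero]; exact hG b
  set y : ℕ → ℝ := fun j => (fun y => c * y ^ N)^[j] (V b) with hy
  have hs : ∀ j, y (j + 1) = c * y j ^ N := fun j => Function.iterate_succ_apply' _ _ _
  have hy0 : ∀ j, 0 < y j ∧ y j ≤ V b := by
    intro j
    induction j with
    | zero => exact ⟨h0, le_rfl⟩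
    | succ j ih =>
      rw [hs]
      refine ⟨mul_pos hc (pow_pos ih.1 _), ?_⟩
      have := pow_le_of_le_one ih.1.le (ih.2.trans (hV b)) hN.ne'
      nlinarith [pow_pos ih.1 N, ih.2]
  have hanti : Antitone y := antitone_nat_of_succ_le fun j => by
    rw [hs]
    have := pow_le_of_le_one (hy0 j).1.le ((hy0 j).2.trans (hV b)) hN.ne'
    nlinarith [pow_pos (hy0 j).1 N]
  obtain ⟨j, hj, hj'⟩ := cnt_step (fun j => (univ.filter fun b => y j ≤ G b).card) d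
    fun j => by simpa using card_le_univ (univ.filter fun b => y j ≤ G b)
  have h4 := H (y j) (hy0 j).1 ((hy0 j).2.trans (hV b))
  rw [← hs] at h4
  have h5 : (univ.filter fun b => y j ≤ G b) = univ.filter fun b => y j ≤ V b :=
    eq_of_subset_of_card_le (fun a ha => mem_filter.2
      ⟨mem_univ _, (mem_filter.1 ha).2.trans (hGV a)⟩) (h4.trans hj')
  have h6 : b ∈ univ.filter fun b => y j ≤ G b := by
    rw [h5]; exact mem_filter.2 ⟨mem_univ _, (hy0 j).2⟩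
  rw [← h3]
  exact (hanti (by omega : j ≤ d + 1)).trans (mem_filter.1 h6).2

end Pool.Agent.Lib.LJ84
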